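import Pool.Agent.Helper50.LF.Sent

/-!
# Project LF, module LF-12: the relativised notion of a b-scale in the full structure
-/

set_option autoImplicit false

namespace Pool.Agent.Helper50.LF

open Set Filter Cardinal

theorem h45_refl (f : Node → ℕ) : LeStar f f := by
  have : {s : Node | ¬ f s ≤ f s} = ∅ := by
    ext s; simp
  rw [LeStar, this]; exact finite_empty

/-- The set of cardinals of unbounded families. -/
theorem h45_unb_nonempty :
    {κ : Cardinal.{0} | ∃ F : Set (ℕ → ℕ), #F = κ ∧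
      ∀ g : ℕ → ℕ, ∃ f ∈ F, ¬ {n | ¬ f n ≤ g n}.Finite}.Nonempty := by
  refine ⟨#(Set.univ : Set (ℕ → ℕ)), Set.univ, rfl, fun g => ⟨fun n => g n + 1, trivial, ?_⟩⟩
  have : {n : ℕ | ¬ g n + 1 ≤ g n} = Set.univ := by
    ext n; simp
  rw [this]
  exact Set.infinite_univ

theorem h45_bnum_mem : ∃ F : Set (ℕ → ℕ), #F = bnum ∧
      ∀ g : ℕ → ℕ, ∃ f ∈ F, ¬ {n | ¬ f n ≤ g n}.Finite := csInf_mem h45_unb_nonempty

theorem h45_bnum_le {F : Set (ℕ → ℕ)} (h : ∀ g : ℕ → ℕ, ∃ f ∈ F, ¬ {n | ¬ f n ≤ g n}.Finite) :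
    bnum ≤ #F := csInf_le' ⟨F, rfl, h⟩

theorem h45_back {B : Set (Node → ℕ)} (hB : IsBScale B) : BScaleIn Set.univ Set.univ B := by
  obtain ⟨e, he, hle⟩ := hB.orderType
  have hinj : Function.Injective e := by
    intro x y hxy
    exact le_antisymm ((hle x y).2 (hxy ▸ h45_refl _)) ((hle y x).2 (hxy ▸ h45_refl _))
  refine ⟨trivial, fun _ _ => trivial, hB.increasing, fun g _ => hB.unbounded g, ?_, ?_, ?_, ?_,
    hB.root⟩
  · intro f hf g hg
    rw [← he] at hf hg
    obtain ⟨x, rfl⟩ := hf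
    obtain ⟨y, rfl⟩ := hg
    rw [← hle, ← hle]
    exact le_total x y
  · intro f hf g hg h1 h2
    rw [← he] at hf hg
    obtain ⟨x, rfl⟩ := hf
    obtain ⟨y, rfl⟩ := hg
    rw [← hle] at h1 h2
    rw [le_antisymm h1 h2]
  · intro D hD hne
    have hne' : (e ⁻¹' D).Nonempty := by
      obtain ⟨f, hf⟩ := hne
      have := hD hf
      rw [← he] at this
      obtain ⟨x, rfl⟩ := this
      exact ⟨x, hf⟩
    have hmin := WellFounded.min_mem (wellFounded_lt (α := bnum.ord.ToType)) (e ⁻¹' D) hne'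
    refine ⟨_, hmin, fun g hg => ?_⟩
    have := hD hg
    rw [← he] at this
    obtain ⟨y, rfl⟩ := this
    rw [← hle]
    exact not_lt.1 (WellFounded.not_lt_min (wellFounded_lt (α := bnum.ord.ToType)) (e ⁻¹' D) hg)
  · intro g hg φ _
    rw [← he] at hg
    obtain ⟨y, rfl⟩ := hg
    by_contra hcon
    push Not at hcon
    have hunb : ∀ h : ℕ → ℕ, ∃ f ∈ ((fun x => φ (e x)) '' Iio y : Set (ℕ → ℕ)),
        ¬ {n | ¬ f n ≤ h n}.Finite := by
      intro h
      obtain ⟨f, hf, h1, h2, h3⟩ := hcon h trivial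
      rw [← he] at hf
      obtain ⟨x, rfl⟩ := hf
      refine ⟨φ (e x), ⟨x, ?_, rfl⟩, ?_⟩
      · rw [← hle] at h1
        exact lt_of_le_of_ne h1 (fun hxy => h2 (by rw [hxy]))
      · simpa using h3
    have h1 := h45_bnum_le hunb
    have h2 : #((fun x => φ (e x)) '' Iio y : Set (ℕ → ℕ)) ≤ #(Iio y) := mk_image_le
    have h3 : #(Iio y) < #(bnum.ord.ToType) := mk_Iio_lt y (by
      rw [Ordinal.type_toType, mk_ord_toType])
    rw [mk_ord_toType] at h3
    exact absurd (h1.trans h2) (not_le.2 h3)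

theorem h45_forth {B : Set (Node → ℕ)} (hB : BScaleIn Set.univ Set.univ B) : IsBScale B := by
  classical
  refine ⟨hB.increasing, fun g => hB.unbounded g trivial, ?_, hB.root⟩
  let r : B → B → Prop := fun f g => LeStar f.1 g.1 ∧ f ≠ g
  have htri : ∀ a b : B, ¬ r a b → ¬ r b a → a = b := by
    intro a b h1 h2
    by_contra hne
    rcases hB.linear a.1 a.2 b.1 b.2 with h | h
    · exact h1 ⟨h, hne⟩
    · exact h2 ⟨h, fun h' => hne h'.symm⟩
  have hwf : WellFounded r := by
    rw [WellFounded.wellFounded_iff_has_min]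
    intro D hD
    obtain ⟨f, hf, hmin⟩ := hB.wf (Subtype.val '' D) (by rintro _ ⟨x, _, rfl⟩; exact x.2)
      (hD.image _)
    obtain ⟨f', hf', rfl⟩ := hf
    refine ⟨f', hf', fun g hg hr => ?_⟩
    exact hr.2 (Subtype.ext (hB.antisymm _ g.2 _ f'.2 hr.1 (hmin g.1 ⟨g, hg, rfl⟩)))
  have : IsWellOrder B r := { trichotomous := htri, wf := hwf }
  -- proper initial segments are smaller than `bnum`
  have hseg : ∀ g : B, #{f : B // r f g} < bnum := by
    intro g
    by_contra hcon
    rw [not_lt] at hcon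
    obtain ⟨F, hF, hunb⟩ := h45_bnum_mem
    rw [← hF] at hcon
    obtain ⟨ι⟩ := hcon
    let φ : (Node → ℕ) → ℕ → ℕ := fun f =>
      if h : ∃ y : F, (ι y).1.1 = f then (Classical.choose h : F).1 else fun _ => 0
    have hφ : ∀ y : F, φ (ι y).1.1 = y.1 := by
      intro y
      have h : ∃ y' : F, (ι y').1.1 = (ι y).1.1 := ⟨y, rfl⟩
      have h2 : φ (ι y).1.1 = (Classical.choose h : F).1 := dif_pos h
      rw [h2]
      have h3 := Classical.choose_spec h
      exact congrArg Subtype.val (ι.injective (Subtype.ext (Subtype.ext h3)))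
    obtain ⟨h, _, hh⟩ := hB.orderType g.1 g.2 φ trivial
    obtain ⟨f, hf, hnf⟩ := hunb h
    apply hnf
    have hr := (ι ⟨f, hf⟩).2
    have := hh (ι ⟨f, hf⟩).1.1 (ι ⟨f, hf⟩).1.2 hr.1 (fun h' => hr.2 (Subtype.ext h'))
    rw [hφ] at this
    exact this
  -- the cardinality of `B` is at least `bnum`
  have hcard : bnum ≤ #B := by
    let E : ℕ ≃ Node := (Denumerable.eqv Node).symm
    have hunb : ∀ h : ℕ → ℕ, ∃ f ∈ ((fun f : Node → ℕ => fun n => f (E n)) '' B : Set (ℕ → ℕ)),
        ¬ {n | ¬ f n ≤ h n}.Finite := by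
      intro h
      obtain ⟨f, hf, hnf⟩ := hB.unbounded (fun s => h (E.symm s)) trivial
      refine ⟨_, ⟨f, hf, rfl⟩, fun hfin => hnf ?_⟩
      refine (hfin.image E).subset ?_
      intro s hs
      refine ⟨E.symm s, ?_, by simp⟩
      simpa using hs
    exact (h45_bnum_le hunb).trans mk_image_le
  have htype : Ordinal.type r = bnum.ord := by
    apply le_antisymm
    · by_contra hcon
      rw [not_le] at hcon
      obtain ⟨g, hg⟩ := Ordinal.typein_surj r hcon
      have h1 := hseg g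
      have h2 := Ordinal.card_typein (r := r) g
      rw [hg, card_ord] at h2
      rw [h2] at h1
      exact lt_irrefl _ h1
    · rw [ord_le, Ordinal.card_type]
      exact hcard
  rw [← Ordinal.type_toType bnum.ord] at htype
  obtain ⟨iso⟩ := Ordinal.type_eq.1 htype
  refine ⟨fun x => (iso.symm x).1, ?_, ?_⟩
  · ext f
    constructor
    · rintro ⟨x, rfl⟩
      exact (iso.symm x).2
    · intro hf
      exact ⟨iso ⟨f, hf⟩, by simp⟩
  · intro x y
    constructor
    · intro h
      rcases h.lt_or_eq with h | h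
      · exact (iso.symm.map_rel_iff.2 h).1
      · rw [h]; exact h45_refl _
    · intro h
      by_cases hxy : x = y
      · exact hxy.le
      · have : r (iso.symm x) (iso.symm y) := ⟨h, fun h' => hxy (iso.symm.injective h')⟩
        exact (iso.symm.map_rel_iff.1 this).le

theorem bScaleIn_univ (B : Set (Node → ℕ)) :
    BScaleIn Set.univ Set.univ B ↔ IsBScale B := ⟨h45_forth, h45_back⟩

end Pool.Agent.Helper50.LF
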